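import Pool.Agent.Helper68.FblFinal

set_option autoImplicit false

universe u

namespace Pool.Agent.Results.MP_100021_an.AtomsDetermine

open Pool.Agent.Helper68.Projective

/-- For every projective Banach lattice `X`, every order continuous functional on `X` that vanishes
at every atom of `X` is zero: the order continuous functionals are determined by the atoms. -/
theorem result (X : Type u) [NormedAddCommGroup X] [NormedSpace ℝ X] [Lattice X]
    [IsOrderedAddMonoid X] [PosSMulMono ℝ X] [HasSolidNorm X] [CompleteSpace X]
    (hX : IsProjective X) (f : X →L[ℝ] ℝ) (hf : IsOrderContinuous f)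
    (ha : ∀ a : X, IsLatticeAtom a → f a = 0) : f = 0 :=
  main hX f hf ha

end Pool.Agent.Results.MP_100021_an.AtomsDetermine
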